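import Mathlib

set_option autoImplicit false

/-!
# Every finite poset embeds in a `k`-irreducible poset of larger `k`-dimension

For a finite poset `P` we build a finite poset `W` containing `P`: a family of subsets of a set `I`
of `d = 3|P| + 2` coordinates, with a chain of `(k - 2)(d - 1) + 1` elements on top. A fooling set of
`(k - 1)(d - 1) + 1` pairs shows `dim_k W ≥ d`, and for each `x` in `P` the poset `W - x` embeds in
the product of `d - 1` chains. A minimal subposet of `W` that contains `P` and has `k`-dimension at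
least `d` is `k`-irreducible.
-/

namespace Pool.Agent.Results.MP_6e33d6_co.IrreducibleEmbedding

universe u

/-- The `k`-dimension of `P`: the least `n` such that `P` order-embeds in the product of `n` copies
of the `k`-element chain. -/
noncomputable def kdim (k : ℕ) (P : Type u) [PartialOrder P] : ℕ :=
  sInf {n : ℕ | Nonempty (P ↪o (Fin n → Fin k))}

/-- `Q` is `k`-irreducible: deleting any element lowers the `k`-dimension. -/
def KIrreducible (k : ℕ) (Q : Type u) [PartialOrder Q] : Prop :=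
  ∀ x : Q, kdim k {y : Q // y ≠ x} < kdim k Q

section general

/-- An embedding into a product indexed by a finite type gives one indexed by `Fin`. -/
theorem embed_of_index {k : ℕ} {X : Type u} [PartialOrder X] {J : Type u} [Fintype J]
    (g : X → J → Fin k) (hg : ∀ a b, g a ≤ g b ↔ a ≤ b) :
    Nonempty (X ↪o (Fin (Fintype.card J) → Fin k)) := by
  let e := Fintype.equivFin J
  refine ⟨OrderEmbedding.ofMapLEIff (fun w i => g w (e.symm i)) ?_⟩
  intro a b
  rw [← hg]
  constructor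
  · intro h j
    have := h (e j)
    simpa using this
  · intro h i
    exact h _

theorem exists_embed {k : ℕ} (hk : 2 ≤ k) (X : Type u) [PartialOrder X] [Fintype X] :
    Nonempty (X ↪o (Fin (Fintype.card X) → Fin k)) := by
  classical
  refine embed_of_index (fun w c => if c ≤ w then (⟨1, by omega⟩ : Fin k) else ⟨0, by omega⟩) ?_
  intro a b
  constructor
  · intro h
    have := h a
    by_contra hab
    simp [hab] at this
  · intro h c
    by_cases hc : c ≤ a
    · simp [hc, hc.trans h]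
    · simp only [hc, if_false]
      exact Fin.mk_le_of_le_val (Nat.zero_le _)

theorem kdim_spec {k : ℕ} (hk : 2 ≤ k) (X : Type u) [PartialOrder X] [Finite X] :
    Nonempty (X ↪o (Fin (kdim k X) → Fin k)) := by
  have := Fintype.ofFinite X
  exact Nat.sInf_mem (s := {n : ℕ | Nonempty (X ↪o (Fin n → Fin k))}) ⟨_, exists_embed hk X⟩

theorem kdim_le {k n : ℕ} {X : Type u} [PartialOrder X] (h : Nonempty (X ↪o (Fin n → Fin k))) :
    kdim k X ≤ n := Nat.sInf_le h

theorem kdim_mono {k : ℕ} (hk : 2 ≤ k) {X Y : Type u} [PartialOrder X] [PartialOrder Y] [Finite Y]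
    (f : X ↪o Y) : kdim k X ≤ kdim k Y := by
  obtain ⟨g⟩ := kdim_spec hk Y
  exact kdim_le ⟨f.trans g⟩

/-- The fooling set bound. -/
theorem fooling {k n : ℕ} {X : Type u} [PartialOrder X] (f : X ↪o (Fin n → Fin k))
    {I : Type u} [Fintype I] (a b : I → X) (h1 : ∀ i, ¬ a i ≤ b i)
    (h2 : ∀ i j, i ≠ j → a i ≤ b j ∨ a j ≤ b i) : Fintype.card I ≤ n * (k - 1) := by
  have h3 : ∀ i, ∃ c : Fin n, f (b i) c < f (a i) c := by
    intro i
    by_contra hcon
    push Not at hcon
    exact h1 i (f.le_iff_le.1 hcon)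
  choose c hc using h3
  have hlt : ∀ i, (f (b i) (c i)).1 < k - 1 := by
    intro i
    have h4 := (f (a i) (c i)).2
    have h5 : (f (b i) (c i)).1 < (f (a i) (c i)).1 := hc i
    omega
  let F : I → Fin n × Fin (k - 1) := fun i => (c i, ⟨(f (b i) (c i)).1, hlt i⟩)
  have hF : Function.Injective F := by
    intro i j hij
    by_contra hne
    have e1 : c i = c j := congrArg Prod.fst hij
    have e2 : (f (b i) (c i)).1 = (f (b j) (c j)).1 :=
      congrArg (fun p : Fin n × Fin (k - 1) => p.2.1) hij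
    rcases h2 i j hne with h | h
    · have h6 : (f (a i) (c i)).1 ≤ (f (b j) (c i)).1 := (f.le_iff_le.2 h) (c i)
      have h7 : (f (b i) (c i)).1 < (f (a i) (c i)).1 := hc i
      rw [e1] at h6 h7 e2
      omega
    · have h6 : (f (a j) (c j)).1 ≤ (f (b i) (c j)).1 := (f.le_iff_le.2 h) (c j)
      have h7 : (f (b j) (c j)).1 < (f (a j) (c j)).1 := hc j
      rw [e1] at e2
      omega
  have := Fintype.card_le_of_injective F hF
  simpa using this

end general

section construction

variable {P : Type u} [PartialOrder P]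

/-- The auxiliary coordinates. -/
abbrev Z (P : Type u) : Type u := (P × Bool) ⊕ ULift.{u} Bool

/-- All coordinates. -/
abbrev I (P : Type u) : Type u := P ⊕ Z P

/-- The copy of `P`. -/
def pS (z : P) : Set (I P) := {c | ∃ v, c = Sum.inl v ∧ v ≤ z}

/-- The partner of `x`. -/
def yS (x : P) : Set (I P) :=
  {c | (∃ v, c = Sum.inl v ∧ ¬ x ≤ v) ∨ ∃ b, c = Sum.inr (Sum.inl (x, b))}

/-- Singletons. -/
def aS (ζ : Z P) : Set (I P) := {Sum.inr ζ}

/-- Complements of singletons. -/
def bS (ζ : Z P) : Set (I P) := {Sum.inr ζ}ᶜ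

/-- The family of all these sets. -/
def Fam (P : Type u) [PartialOrder P] : Set (Set (I P)) :=
  Set.range pS ∪ Set.range yS ∪ Set.range aS ∪ Set.range bS

omit [PartialOrder P] in
theorem exists_bool_ne (ζ : Z P) : ∃ β : Bool, (Sum.inr (ULift.up β) : Z P) ≠ ζ := by
  by_cases h : (Sum.inr (ULift.up true) : Z P) = ζ
  · refine ⟨false, ?_⟩
    intro h2
    rw [← h] at h2
    simp at h2
  · exact ⟨true, h⟩

theorem sep (x : P) {S S' : Set (I P)} (hS : S ∈ Fam P) (hS' : S' ∈ Fam P) (hx : S ≠ pS x)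
    (hn : ¬ S ⊆ S') : ∃ c ∈ S, c ∉ S' ∧ c ≠ Sum.inl x := by
  rcases hS with ((⟨z, rfl⟩ | ⟨y, rfl⟩) | ⟨ζ, rfl⟩) | ⟨ζ, rfl⟩
  · have hzx : z ≠ x := by rintro rfl; exact hx rfl
    have key : Sum.inl z ∉ S' → ∃ c ∈ pS z, c ∉ S' ∧ c ≠ Sum.inl x := fun h =>
      ⟨Sum.inl z, ⟨z, rfl, le_rfl⟩, h, by simpa using hzx⟩
    rcases hS' with ((⟨z', rfl⟩ | ⟨y', rfl⟩) | ⟨ζ', rfl⟩) | ⟨ζ', rfl⟩
    · apply key
      rintro ⟨v, hv, hv2⟩
      obtain rfl := Sum.inl_injective hv
      apply hn
      rintro _ ⟨w, rfl, hw⟩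
      exact ⟨w, rfl, hw.trans hv2⟩
    · apply key
      rintro (⟨v, hv, hv2⟩ | ⟨b, hb⟩)
      · obtain rfl := Sum.inl_injective hv
        apply hn
        rintro _ ⟨w, rfl, hw⟩
        exact Or.inl ⟨w, rfl, fun h => hv2 (h.trans hw)⟩
      · simp at hb
    · apply key
      simp [aS]
    · exfalso
      apply hn
      rintro _ ⟨w, rfl, hw⟩
      simp [bS]
  · rcases hS' with ((⟨z', rfl⟩ | ⟨y', rfl⟩) | ⟨ζ', rfl⟩) | ⟨ζ', rfl⟩
    · refine ⟨Sum.inr (Sum.inl (y, true)), Or.inr ⟨true, rfl⟩, ?_, by simp⟩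
      rintro ⟨v, hv, _⟩
      simp at hv
    · have hyy : y ≠ y' := by rintro rfl; exact hn subset_rfl
      refine ⟨Sum.inr (Sum.inl (y, true)), Or.inr ⟨true, rfl⟩, ?_, by simp⟩
      rintro (⟨v, hv, _⟩ | ⟨b, hb⟩)
      · simp at hv
      · simp only [Sum.inr.injEq, Sum.inl.injEq, Prod.mk.injEq] at hb
        exact hyy hb.1
    · by_cases h : (Sum.inl (y, true) : Z P) = ζ'
      · refine ⟨Sum.inr (Sum.inl (y, false)), Or.inr ⟨false, rfl⟩, ?_, by simp⟩
        rw [← h]
        simp [aS]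
      · refine ⟨Sum.inr (Sum.inl (y, true)), Or.inr ⟨true, rfl⟩, ?_, by simp⟩
        intro h2
        exact h (Sum.inr_injective h2)
    · have h : Sum.inr ζ' ∈ yS y := by
        by_contra h
        apply hn
        intro c hc
        show c ≠ Sum.inr ζ'
        rintro rfl
        exact h hc
      exact ⟨Sum.inr ζ', h, by simp [bS], by simp⟩
  · refine ⟨Sum.inr ζ, rfl, ?_, by simp⟩
    intro h
    apply hn
    rintro _ rfl
    exact h
  · rcases hS' with ((⟨z', rfl⟩ | ⟨y', rfl⟩) | ⟨ζ', rfl⟩) | ⟨ζ', rfl⟩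
    · obtain ⟨β, hβ⟩ := exists_bool_ne ζ
      refine ⟨Sum.inr (Sum.inr (ULift.up β)), ?_, ?_, by simp⟩
      · intro h
        exact hβ (Sum.inr_injective h)
      · rintro ⟨v, hv, _⟩
        simp at hv
    · obtain ⟨β, hβ⟩ := exists_bool_ne ζ
      refine ⟨Sum.inr (Sum.inr (ULift.up β)), ?_, ?_, by simp⟩
      · intro h
        exact hβ (Sum.inr_injective h)
      · rintro (⟨v, hv, _⟩ | ⟨b, hb⟩)
        · simp at hv
        · simp at hb
    · have h3 : ∃ η : Z P, η ≠ ζ ∧ η ≠ ζ' := by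
        by_contra hcon
        push Not at hcon
        have h1 := hcon (Sum.inr (ULift.up true))
        have h2 := hcon (Sum.inr (ULift.up false))
        have h3 := hcon (Sum.inl (x, true))
        by_cases e1 : (Sum.inr (ULift.up true) : Z P) = ζ
        · have e2 := h2 (by rw [← e1]; simp)
          have e3 := h3 (by rw [← e1]; simp)
          rw [← e3] at e2
          simp at e2
        · have e1' := h1 e1
          by_cases e2 : (Sum.inr (ULift.up false) : Z P) = ζ
          · have e3 := h3 (by rw [← e2]; simp)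
            rw [← e3] at e1'
            simp at e1'
          · have e2' := h2 e2
            rw [← e2'] at e1'
            simp at e1'
      obtain ⟨η, h4, h5⟩ := h3
      refine ⟨Sum.inr η, ?_, ?_, by simp⟩
      · intro h
        exact h4 (Sum.inr_injective h)
      · intro h
        exact h5 (Sum.inr_injective h)
    · have hζ : ζ' ≠ ζ := by rintro rfl; exact hn subset_rfl
      refine ⟨Sum.inr ζ', ?_, by simp [bS], by simp⟩
      intro h
      exact hζ (Sum.inr_injective h)

theorem sep_top (x : P) {S : Set (I P)} (hS : S ∈ Fam P) : ∃ c, c ∉ S ∧ c ≠ Sum.inl x := by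
  rcases hS with ((⟨z, rfl⟩ | ⟨y, rfl⟩) | ⟨ζ, rfl⟩) | ⟨ζ, rfl⟩
  · refine ⟨Sum.inr (Sum.inr (ULift.up true)), ?_, by simp⟩
    rintro ⟨v, hv, _⟩
    simp at hv
  · refine ⟨Sum.inr (Sum.inr (ULift.up true)), ?_, by simp⟩
    rintro (⟨v, hv, _⟩ | ⟨b, hb⟩)
    · simp at hv
    · simp at hb
  · obtain ⟨β, hβ⟩ := exists_bool_ne ζ
    refine ⟨Sum.inr (Sum.inr (ULift.up β)), ?_, by simp⟩
    intro h
    exact hβ (Sum.inr_injective h)
  · exact ⟨Sum.inr ζ, by simp [bS], by simp⟩

/-- The first members of the fooling pairs. -/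
def fa : I P → Set (I P)
  | Sum.inl x => pS x
  | Sum.inr ζ => aS ζ

/-- The second members of the fooling pairs. -/
def fb : I P → Set (I P)
  | Sum.inl x => yS x
  | Sum.inr ζ => bS ζ

theorem fa_mem (i : I P) : fa i ∈ Fam P := by
  cases i with
  | inl x => exact Or.inl (Or.inl (Or.inl ⟨x, rfl⟩))
  | inr ζ => exact Or.inl (Or.inr ⟨ζ, rfl⟩)

theorem fb_mem (i : I P) : fb i ∈ Fam P := by
  cases i with
  | inl x => exact Or.inl (Or.inl (Or.inr ⟨x, rfl⟩))
  | inr ζ => exact Or.inr ⟨ζ, rfl⟩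

theorem fa_not_le (i : I P) : ¬ fa i ⊆ fb i := by
  intro h
  cases i with
  | inl x =>
    rcases h (show Sum.inl x ∈ pS x from ⟨x, rfl, le_rfl⟩) with ⟨v, hv, hv2⟩ | ⟨b, hb⟩
    · obtain rfl := Sum.inl_injective hv
      exact hv2 le_rfl
    · simp at hb
  | inr ζ => exact h (show Sum.inr ζ ∈ aS ζ from rfl) rfl

theorem fa_cross (i j : I P) (hij : i ≠ j) : fa i ⊆ fb j ∨ fa j ⊆ fb i := by
  have h1 : ∀ (x x' : P), ¬ x' ≤ x → pS x ⊆ yS x' := by
    rintro x x' h _ ⟨v, rfl, hv⟩
    exact Or.inl ⟨v, rfl, fun h2 => h (h2.trans hv)⟩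
  have h2 : ∀ (x : P) (ζ : Z P), pS x ⊆ bS ζ := by
    rintro x ζ _ ⟨v, rfl, hv⟩
    simp [bS]
  cases i with
  | inl x =>
    cases j with
    | inl x' =>
      by_cases h : x' ≤ x
      · refine Or.inr (h1 x' x fun h3 => hij ?_)
        rw [le_antisymm h h3]
      · exact Or.inl (h1 x x' h)
    | inr ζ => exact Or.inl (h2 x ζ)
  | inr ζ =>
    cases j with
    | inl x => exact Or.inr (h2 x ζ)
    | inr ζ' =>
      left
      rintro _ rfl
      exact hij

/-- The ambient poset is `Set (I P) × ℕ`. The big poset `W` with `M + 1` chain elements on top. -/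
def W (P : Type u) [PartialOrder P] (M : ℕ) : Set (Set (I P) × ℕ) :=
  {h | (h.1 ∈ Fam P ∧ h.2 = 0) ∨ (h.1 = Set.univ ∧ 1 ≤ h.2 ∧ h.2 ≤ M + 1)}

theorem W_finite [Finite P] (M : ℕ) : (W P M).Finite := by
  have h1 : (Set.univ : Set (Set (I P))).Finite := Set.toFinite _
  refine (h1.prod (Set.finite_Iic (M + 1))).subset ?_
  rintro ⟨S, t⟩ h
  refine ⟨Set.mem_univ _, ?_⟩
  rcases h with ⟨_, h⟩ | ⟨_, _, h⟩
  · simp only at h
    simp [h]
  · exact h

theorem lower [Fintype P] {k M n : ℕ} (f : W P M ↪o (Fin n → Fin k)) :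
    Fintype.card (I P) + M ≤ n * (k - 1) := by
  let a : (I P) ⊕ ULift.{u} (Fin M) → W P M := fun i => match i with
    | Sum.inl i => ⟨(fa i, 0), Or.inl ⟨fa_mem i, rfl⟩⟩
    | Sum.inr j => ⟨(Set.univ, j.down.1 + 2), Or.inr ⟨rfl, by simp, by
        have := j.down.2
        show j.down.1 + 2 ≤ M + 1
        omega⟩⟩
  let b : (I P) ⊕ ULift.{u} (Fin M) → W P M := fun i => match i with
    | Sum.inl i => ⟨(fb i, 0), Or.inl ⟨fb_mem i, rfl⟩⟩
    | Sum.inr j => ⟨(Set.univ, j.down.1 + 1), Or.inr ⟨rfl, by simp, by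
        have := j.down.2
        show j.down.1 + 1 ≤ M + 1
        omega⟩⟩
  have h := fooling f a b ?_ ?_
  · simpa using h
  · rintro (i | j) h
    · exact fa_not_le i h.1
    · have := h.2
      simp [a, b] at this
  · rintro (i | j) (i' | j') hne
    · rcases fa_cross i i' (fun h => hne (by rw [h])) with h | h
      · exact Or.inl ⟨h, le_rfl⟩
      · exact Or.inr ⟨h, le_rfl⟩
    · exact Or.inl ⟨Set.subset_univ _, Nat.zero_le _⟩
    · exact Or.inr ⟨Set.subset_univ _, Nat.zero_le _⟩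
    · have hne' : j.down.1 ≠ j'.down.1 := by
        intro h
        apply hne
        congr 1
        exact ULift.ext _ _ (Fin.ext h)
      rcases Nat.lt_or_gt_of_ne hne' with h | h
      · refine Or.inl ⟨le_rfl, ?_⟩
        show j.down.1 + 2 ≤ j'.down.1 + 1
        omega
      · refine Or.inr ⟨le_rfl, ?_⟩
        show j'.down.1 + 2 ≤ j.down.1 + 1
        omega

theorem min_strict {K j j' : ℕ} (hK : 0 < K) (h : j' < j) :
    min (j' - j' / K * K) K < min (j - j' / K * K) K := by
  have h1 := Nat.div_add_mod j' K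
  have h2 := Nat.mod_lt j' hK
  have h3 : j' / K * K = K * (j' / K) := Nat.mul_comm _ _
  rw [h3]
  omega

theorem upper [Fintype P] {k : ℕ} (hk : 2 ≤ k) (x : P) :
    Nonempty (((W P ((k - 2) * (Fintype.card (I P) - 1)) \ {(pS x, 0)} :
      Set (Set (I P) × ℕ)) : Type u) ↪o (Fin (Fintype.card (I P) - 1) → Fin k)) := by
  classical
  have hcard : Fintype.card {c : I P // c ≠ Sum.inl x} = Fintype.card (I P) - 1 := by
    rw [Fintype.card_subtype_compl]
    simp
  rw [← hcard]
  let e := Fintype.equivFin {c : I P // c ≠ Sum.inl x}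
  let v : (Set (I P) × ℕ) → {c : I P // c ≠ Sum.inl x} → ℕ := fun w c =>
    if w.2 = 0 then (if c.1 ∈ w.1 then 1 else 0)
    else 1 + min (w.2 - 1 - (e c).1 * (k - 2)) (k - 2)
  have hv : ∀ w c, v w c < k := by
    intro w c
    simp only [v]
    split_ifs
    · omega
    · omega
    · have := Nat.min_le_right (w.2 - 1 - (e c).1 * (k - 2)) (k - 2)
      omega
  refine embed_of_index (fun w c => ⟨v w.1 c, hv w.1 c⟩) ?_
  rintro ⟨⟨S, t⟩, hw, hwx⟩ ⟨⟨S', t'⟩, hw', hwx'⟩
  have hle : ∀ c, (⟨v (S, t) c, hv (S, t) c⟩ : Fin k) ≤ ⟨v (S', t') c, hv (S', t') c⟩ ↔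
      v (S, t) c ≤ v (S', t') c := fun c => Iff.rfl
  constructor
  · intro h
    have h' : ∀ c, v (S, t) c ≤ v (S', t') c := h
    rcases hw with ⟨hS, ht⟩ | ⟨hS, ht1, ht2⟩ <;> rcases hw' with ⟨hS', ht'⟩ | ⟨hS', ht1', ht2'⟩
    · simp only at hS ht hS' ht'
      subst ht ht'
      refine ⟨?_, le_rfl⟩
      by_contra hn
      have hne : S ≠ pS x := by
        rintro rfl
        exact hwx rfl
      obtain ⟨c, hc1, hc2, hc3⟩ := sep x hS hS' hne hn
      have := h' ⟨c, hc3⟩
      simp [v, hc1, hc2] at this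
    · simp only at hS ht hS'
      subst ht hS'
      exact ⟨Set.subset_univ _, Nat.zero_le _⟩
    · simp only at hS ht1 hS' ht'
      subst ht'
      exfalso
      obtain ⟨c, hc1, hc2⟩ := sep_top x hS'
      have h2 := h' ⟨c, hc2⟩
      have h3 : t ≠ 0 := by omega
      simp only [v, h3, if_false, if_true, hc1] at h2
      omega
    · simp only at hS ht1 ht2 hS' ht1' ht2'
      subst hS hS'
      refine ⟨le_rfl, ?_⟩
      show t ≤ t'
      by_contra hlt
      push Not at hlt
      have hM : 0 < (k - 2) * Fintype.card {c : I P // c ≠ Sum.inl x} := by omega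
      have hK : 0 < k - 2 := by
        rcases Nat.eq_zero_or_pos (k - 2) with h0 | h0
        · rw [h0] at hM
          simp at hM
        · exact h0
      have hi : (t' - 1) / (k - 2) < Fintype.card {c : I P // c ≠ Sum.inl x} := by
        rw [Nat.div_lt_iff_lt_mul hK, Nat.mul_comm]
        omega
      have h2 := h' (e.symm ⟨(t' - 1) / (k - 2), hi⟩)
      have h3 : t ≠ 0 := by omega
      have h4 : t' ≠ 0 := by omega
      simp only [v, h3, h4, if_false, Equiv.apply_symm_apply] at h2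
      have h5 := min_strict (K := k - 2) (j := t - 1) (j' := t' - 1) hK (by omega)
      omega
  · rintro ⟨h1, h2⟩ c
    rw [hle]
    simp only at h1 h2
    rcases hw with ⟨hS, ht⟩ | ⟨hS, ht1, ht2⟩ <;> rcases hw' with ⟨hS', ht'⟩ | ⟨hS', ht1', ht2'⟩
    · simp only at hS ht hS' ht'
      subst ht ht'
      by_cases hc : c.1 ∈ S
      · have : c.1 ∈ S' := h1 hc
        simp [v, hc, this]
      · simp [v, hc]
    · simp only at hS ht hS' ht1'
      subst ht
      have h4 : t' ≠ 0 := by omega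
      simp only [v, h4, if_false, if_true]
      split_ifs <;> omega
    · simp only at ht1 ht'
      omega
    · simp only at ht1 ht1'
      have h3 : t ≠ 0 := by omega
      have h4 : t' ≠ 0 := by omega
      simp only [v, h3, h4, if_false]
      omega

/-- `P` embeds in the family by principal down-sets. -/
theorem pS_subset_iff (z z' : P) : pS z ⊆ pS z' ↔ z ≤ z' := by
  constructor
  · intro h
    obtain ⟨v, hv, hv2⟩ := h (show Sum.inl z ∈ pS z from ⟨z, rfl, le_rfl⟩)
    obtain rfl := Sum.inl_injective hv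
    exact hv2
  · rintro h _ ⟨v, rfl, hv⟩
    exact ⟨v, rfl, hv.trans h⟩

end construction

/-- For every `k ≥ 2`, every finite poset `P` order-embeds in a finite `k`-irreducible poset `Q` with
`dim_k P < dim_k Q`. -/
theorem result : ∀ k : ℕ, 2 ≤ k → ∀ (P : Type u) [PartialOrder P] [Finite P],
    ∃ (Q : Type u) (_ : PartialOrder Q) (_ : Finite Q),
      KIrreducible k Q ∧ Nonempty (P ↪o Q) ∧ kdim k P < kdim k Q := by
  intro k hk P _ _
  classical
  have := Fintype.ofFinite P
  set d := Fintype.card (I P) with hd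
  have hd3 : Fintype.card P + 2 ≤ d := by
    rw [hd]
    simp only [Fintype.card_sum, Fintype.card_prod, Fintype.card_bool, Fintype.card_ulift]
    omega
  set M := (k - 2) * (d - 1) with hM
  have hWfin := W_finite (P := P) M
  set PP : Set (Set (I P) × ℕ) := Set.range (fun z : P => (pS z, 0)) with hPP
  have hPW : PP ⊆ W P M := by
    rintro _ ⟨z, rfl⟩
    exact Or.inl ⟨Or.inl (Or.inl (Or.inl ⟨z, rfl⟩)), rfl⟩
  have hfin : ∀ A : Set (Set (I P) × ℕ), A ⊆ W P M → Finite A := fun A hA =>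
    (hWfin.subset hA).to_subtype
  have hWd : d ≤ kdim k (W P M) := by
    have := hfin _ subset_rfl
    obtain ⟨f⟩ := kdim_spec hk (W P M)
    have h1 := lower f
    by_contra hcon
    push Not at hcon
    have h2 : kdim k (W P M) ≤ d - 1 := by omega
    have h3 : kdim k (W P M) * (k - 1) ≤ (d - 1) * (k - 1) := Nat.mul_le_mul_right _ h2
    have h4 : (d - 1) * (k - 1) = (k - 2) * (d - 1) + (d - 1) := by
      obtain ⟨m, rfl⟩ : ∃ m, k = m + 2 := ⟨k - 2, by omega⟩
      have : m + 2 - 1 = m + 1 := by omega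
      rw [this]
      simp
      ring
    omega
  -- a minimal candidate
  set C : Set (Set (Set (I P) × ℕ)) := {Q | PP ⊆ Q ∧ Q ⊆ W P M ∧ d ≤ kdim k Q} with hC
  have hCfin : C.Finite := hWfin.finite_subsets.subset fun Q hQ => hQ.2.1
  obtain ⟨Q, hQ⟩ := hCfin.exists_minimal ⟨W P M, hPW, subset_rfl, hWd⟩
  obtain ⟨hQ1, hQ2, hQ3⟩ := hQ.prop
  have hQfin := hfin Q hQ2
  refine ⟨Q, inferInstance, hQfin, ?_, ?_, ?_⟩
  · intro x
    -- deleting `x` embeds in deleting it from the ambient set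
    have emb : ∀ A : Set (Set (I P) × ℕ), Q ⊆ A →
        Nonempty ({y : Q // y ≠ x} ↪o (A \ {x.1} : Set (Set (I P) × ℕ))) := by
      intro A hA
      refine ⟨OrderEmbedding.ofMapLEIff
        (fun y => ⟨y.1.1, hA y.1.2, fun h => y.2 (Subtype.ext h)⟩) ?_⟩
      intro a b
      exact Iff.rfl
    by_cases hx : x.1 ∈ PP
    · obtain ⟨z, hz⟩ := hx
      obtain ⟨f⟩ := emb _ hQ2
      rw [← hz] at f
      obtain ⟨g⟩ := upper hk z
      have h1 : kdim k {y : Q // y ≠ x} ≤ d - 1 := kdim_le ⟨f.trans g⟩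
      omega
    · obtain ⟨f⟩ := emb Q subset_rfl
      have hsub : Q \ {x.1} ⊆ Q := Set.sdiff_subset
      have := hfin (Q \ {x.1}) (hsub.trans hQ2)
      have h1 := kdim_mono hk f
      by_contra hcon
      push Not at hcon
      have h2 : Q \ {x.1} ∈ C := by
        refine ⟨?_, hsub.trans hQ2, by omega⟩
        intro w hw
        refine ⟨hQ1 hw, ?_⟩
        rintro rfl
        exact hx hw
      have h3 := hQ.le_of_le h2 hsub
      exact (h3 x.2).2 rfl
  · refine ⟨OrderEmbedding.ofMapLEIff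
      (fun z => ⟨(pS z, 0), hQ1 ⟨z, rfl⟩⟩) ?_⟩
    intro a b
    constructor
    · intro h
      exact (pS_subset_iff a b).1 h.1
    · intro h
      exact ⟨(pS_subset_iff a b).2 h, le_rfl⟩
  · have h1 : kdim k P ≤ Fintype.card P := kdim_le (exists_embed hk P)
    omega

end Pool.Agent.Results.MP_6e33d6_co.IrreducibleEmbedding
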